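import Pool.Agent.Y8.Stm7

/-!
# NS/Y8 S_RESTR: restriction of a weak solution to a shorter time interval
-/

set_option autoImplicit false

open MeasureTheory Set Metric
open scoped ContDiff

namespace Pool.Agent.Y203.NS.RESTR

open H459R3.NS W221.NS Pool.Agent.Y8

/-- the regular times of the restriction -/
def GR (a b : ℝ) (G : Set ℝ) : Set ℝ := {t | t ∈ Ioo 0 (b - a) ∧ a + t ∈ G}

theorem GR_eq (a b : ℝ) (G : Set ℝ) : GR a b G = (fun t => a + t) ⁻¹' (Ioo a b ∩ G) := by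
  ext t
  simp only [GR, mem_ofPred_eq, mem_preimage, mem_inter_iff, mem_Ioo]
  constructor
  · rintro ⟨⟨h1, h2⟩, h3⟩
    exact ⟨⟨by linarith, by linarith⟩, h3⟩
  · rintro ⟨⟨h1, h2⟩, h3⟩
    exact ⟨⟨by linarith, by linarith⟩, h3⟩

theorem GR_open {a b : ℝ} {G : Set ℝ} (hG : IsOpen G) : IsOpen (GR a b G) := by
  rw [GR_eq]
  exact (isOpen_Ioo.inter hG).preimage (by fun_prop)

theorem int_sh {a b : ℝ} {G : Set ℝ} (g : ℝ → ℝ) :
    ∫ t in GR a b G, g (a + t) = ∫ t in Ioo a b ∩ G, g t := by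
  rw [GR_eq]
  exact (measurePreserving_add_left volume a).setIntegral_preimage_emb
    (MeasurableEquiv.addLeft a).measurableEmbedding g _

theorem ion_sh {a b : ℝ} {G : Set ℝ} {g : ℝ → ℝ} (hg : IntegrableOn g (Ioo a b ∩ G)) :
    IntegrableOn (fun t => g (a + t)) (GR a b G) := by
  rw [GR_eq]
  exact ((measurePreserving_add_left volume a).integrableOn_comp_preimage
    (MeasurableEquiv.addLeft a).measurableEmbedding).2 hg

theorem test_sh {a b T : ℝ} (ha : 0 ≤ a) (hb : b ≤ T) {φ : ℝ → V → ℝ}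
    (h : Test (b - a) φ) : Test T (fun s x => φ (s - a) x) ∧
      tsupport (fun z : ℝ × V => φ (z.1 - a) z.2) ⊆ Ioo a b ×ˢ univ := by
  set e : ℝ × V ≃ₜ ℝ × V := (Homeomorph.subRight a).prodCongr (Homeomorph.refl V) with he
  have hfe : (fun z : ℝ × V => φ (z.1 - a) z.2) = (fun z : ℝ × V => φ z.1 z.2) ∘ e := rfl
  have hs : tsupport (fun z : ℝ × V => φ (z.1 - a) z.2) ⊆ Ioo a b ×ˢ univ := by
    rw [hfe, tsupport_comp_eq_preimage]
    rintro ⟨s, x⟩ hz
    have h1 := h.supp hz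
    have h2 : (s - a, x) ∈ Ioo 0 (b - a) ×ˢ (univ : Set V) := h1
    have h3 := h2.1.1
    have h4 := h2.1.2
    exact ⟨⟨by simp only at h3 ⊢; linarith, by simp only at h4 ⊢; linarith⟩, mem_univ _⟩
  refine ⟨⟨?_, ?_, ?_⟩, hs⟩
  · exact h.smooth.comp (by fun_prop : ContDiff ℝ ∞ fun z : ℝ × V => (z.1 - a, z.2))
  · rw [hfe]
    exact h.cpt.comp_homeomorph e
  · exact hs.trans (prod_mono (Ioo_subset_Ioo ha hb) subset_rfl)

/-- the test function vanishes near times outside of the interval -/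
theorem zero_out {a b : ℝ} {ψ : ℝ → V → ℝ}
    (hs : tsupport (fun z : ℝ × V => ψ z.1 z.2) ⊆ Ioo a b ×ˢ univ) {t : ℝ} (ht : t ∉ Ioo a b) :
    ψ t = (fun _ => 0) ∧ ∀ x, deriv (fun s => ψ s x) t = 0 := by
  have h1 : ∀ x, (t, x) ∉ tsupport (fun z : ℝ × V => ψ z.1 z.2) := fun x hx => ht (hs hx).1
  refine ⟨?_, fun x => ?_⟩
  · funext x
    exact image_eq_zero_of_notMem_tsupport (f := fun z : ℝ × V => ψ z.1 z.2) (h1 x)
  · have h2 : (fun z : ℝ × V => ψ z.1 z.2) =ᶠ[nhds (t, x)] 0 := notMem_tsupport_iff_eventuallyEq.1 (h1 x)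
    have h3 : Filter.Tendsto (fun s : ℝ => ((s, x) : ℝ × V)) (nhds t) (nhds (t, x)) :=
      (Continuous.prodMk continuous_id continuous_const).tendsto t
    have h4 : (fun s => ψ s x) =ᶠ[nhds t] fun _ => 0 := h3.eventually h2
    rw [h4.deriv_eq]
    simp

theorem pd_zf (i : Fin 3) (x : V) : pd i (fun _ => (0 : ℝ)) x = 0 := by
  unfold pd
  simp

theorem lap_zf (x : V) : lap (fun _ => (0 : ℝ)) x = 0 := by
  unfold lap
  have h : ∀ j : Fin 3, pd j (fun _ : V => (0 : ℝ)) = fun _ => 0 := fun j => funext (pd_zf j)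
  simp only [h]
  simp

theorem adv_zf (v : V → V) (x : V) : adv v (fun _ => (0 : ℝ)) x = 0 := by
  unfold adv
  simp only [pd_zf]
  simp

theorem DM_out {ν a b : ℝ} {u : ℝ → V → V} {p : ℝ → V → ℝ} {ψ : ℝ → V → ℝ}
    (hs : tsupport (fun z : ℝ × V => ψ z.1 z.2) ⊆ Ioo a b ×ˢ univ) (i : Fin 3) {t : ℝ}
    (ht : t ∉ Ioo a b) : DM ν u p ψ i t = 0 := by
  obtain ⟨h1, h2⟩ := zero_out hs ht
  unfold DM
  rw [h1]
  simp only [h2, lap_zf, adv_zf, pd_zf]
  simp

theorem DD_out {ν a b : ℝ} {u : ℝ → V → V} {p : ℝ → V → ℝ} {ψ : ℝ → V → ℝ}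
    (hs : tsupport (fun z : ℝ × V => ψ z.1 z.2) ⊆ Ioo a b ×ˢ univ) {t : ℝ}
    (ht : t ∉ Ioo a b) : DD ν u p ψ t = 0 := by
  obtain ⟨h1, h2⟩ := zero_out hs ht
  unfold DD
  rw [h1]
  simp only [h2, lap_zf, adv_zf]
  simp

theorem deriv_sh (a : ℝ) (f : ℝ → ℝ) (t : ℝ) :
    deriv (fun s => f (s - a)) (a + t) = deriv f t := by
  rw [deriv_comp_sub_const]
  congr 1
  ring

theorem DM_sh (ν a : ℝ) (u : ℝ → V → V) (p : ℝ → V → ℝ) (φ : ℝ → V → ℝ) (i : Fin 3) (t : ℝ) :
    DM ν u p (fun s x => φ (s - a) x) i (a + t) =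
      DM ν (fun t => u (a + t)) (fun t => p (a + t)) φ i t := by
  unfold DM
  refine integral_congr_ae (ae_of_all _ fun x => ?_)
  simp only
  rw [deriv_sh a (fun s => φ s x) t]
  have e1 : (fun x => φ (a + t - a) x) = φ t := by
    funext x
    congr 1
    ring
  rw [e1]

theorem DD_sh (ν a : ℝ) (u : ℝ → V → V) (p : ℝ → V → ℝ) (φ : ℝ → V → ℝ) (t : ℝ) :
    DD ν u p (fun s x => φ (s - a) x) (a + t) =
      DD ν (fun t => u (a + t)) (fun t => p (a + t)) φ t := by
  have e1 : (fun x => φ (a + t - a) x) = φ t := by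
    funext x
    congr 1
    ring
  have e2 : ∀ x, φ (a + t - a) x = φ t x := fun x => congrFun e1 x
  unfold DD
  simp only [e2]
  congr 2
  refine integral_congr_ae (ae_of_all _ fun x => ?_)
  simp only
  rw [deriv_sh a (fun s => φ s x) t]

theorem t_RESTR : S_RESTR := by
  intro ν T E D G u p h a b ha hab hb
  have hsubI : Ioo a b ⊆ Ioo 0 T := Ioo_subset_Ioo ha hb
  have hmaps : MapsTo (fun z : ℝ × V => (a + z.1, z.2)) (GR a b G ×ˢ (univ : Set V))
      (G ×ˢ (univ : Set V)) := by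
    rintro ⟨t, x⟩ ⟨ht, -⟩
    exact ⟨ht.2, mem_univ _⟩
  have hlin : ContDiff ℝ ∞ (fun z : ℝ × V => (a + z.1, z.2)) := by fun_prop
  have hsubG : Ioo a b ∩ G ⊆ G := inter_subset_right
  have hmG : MeasurableSet (Ioo a b ∩ G) := (isOpen_Ioo.inter h.openG).measurableSet
  refine ⟨⟨?_, ?_, ?_, ?_, ?_, ?_, ?_, ?_, ?_, ?_, ?_, ?_, ?_, ?_, ?_⟩, ?_⟩
  · exact GR_open h.openG
  · intro t ht
    exact ht.1
  · have h1 : Ioo 0 (b - a) \ GR a b G ⊆ (fun t => a + t) ⁻¹' (Ioo 0 T \ G) := by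
      intro t ht
      refine ⟨hsubI ⟨by linarith [ht.1.1], by linarith [ht.1.2]⟩, fun h2 => ht.2 ⟨ht.1, h2⟩⟩
    refine measure_mono_null h1 ?_
    rw [measure_preimage_add, h.fullG]
  · exact h.smooth_u.comp hlin.contDiffOn hmaps
  · exact h.smooth_p.comp hlin.contDiffOn hmaps
  · intro t ht
    exact h.per_u _ ht.2
  · intro t ht
    exact h.per_p _ ht.2
  · intro t ht x
    exact h.divfree _ ht.2 x
  · intro t ht x i
    have h1 := h.momentum _ ht.2 x i
    have e1 : deriv (fun s => u (a + s) x i) t = deriv (fun s => u s x i) (a + t) :=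
      deriv_comp_const_add (f := fun s => u s x i) a t
    rw [e1]
    exact h1
  · intro t ht
    exact h.energy_le _ ht.2
  · exact ion_sh (g := fun t => enstrophy (u t)) (h.enst_int.mono_set hsubG)
  · refine le_of_eq ?_
    refine (int_sh (fun t => enstrophy (u t))).trans ?_
    refine setIntegral_congr_set ?_
    have h1 : volume (Ioo a b \ G) = 0 :=
      measure_mono_null (sdiff_subset_sdiff_left hsubI) h.fullG
    refine Filter.EventuallyLE.antisymm inter_subset_left.eventuallyLE ?_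
    rw [ae_le_set]
    refine measure_mono_null ?_ h1
    intro t ht
    exact ⟨ht.1, fun h2 => ht.2 ⟨ht.1, h2⟩⟩
  · exact ion_sh (g := fun t => ∫ x in cube, |p t x| ^ (3 / 2 : ℝ)) (h.press.mono_set hsubG)
  · intro φ hφ i
    obtain ⟨h1, h2⟩ := test_sh ha hb hφ
    have h3 := h.weak _ h1 i
    have h4 : ∫ t in G, DM ν u p (fun s x => φ (s - a) x) i t =
        ∫ t in Ioo a b ∩ G, DM ν u p (fun s x => φ (s - a) x) i t :=
      (setIntegral_eq_of_subset_of_forall_sdiff_eq_zero h.openG.measurableSet hsubG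
        fun t ht => DM_out h2 i fun h5 => ht.2 ⟨h5, ht.1⟩)
    rw [h4, ← int_sh (fun t => DM ν u p (fun s x => φ (s - a) x) i t)] at h3
    simp only [DM_sh] at h3
    exact h3
  · intro φ hφ h0
    obtain ⟨h1, h2⟩ := test_sh ha hb hφ
    have h3 := h.local_energy _ h1 (fun t x => h0 _ x)
    have h4 : ∫ t in G, DD ν u p (fun s x => φ (s - a) x) t =
        ∫ t in Ioo a b ∩ G, DD ν u p (fun s x => φ (s - a) x) t :=
      (setIntegral_eq_of_subset_of_forall_sdiff_eq_zero h.openG.measurableSet hsubG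
        fun t ht => DD_out h2 fun h5 => ht.2 ⟨h5, ht.1⟩)
    rw [h4, ← int_sh (fun t => DD ν u p (fun s x => φ (s - a) x) t)] at h3
    simp only [DD_sh] at h3
    exact h3
  · intro t x ht hs δ hδ B
    obtain ⟨s, hsG, hst, y, hy, hB⟩ := hs (min δ (min (t - a) (b - t)))
      (lt_min hδ (lt_min (by linarith [ht.1]) (by linarith [ht.2]))) B
    have m1 : min δ (min (t - a) (b - t)) ≤ δ := min_le_left _ _
    have m2 : min δ (min (t - a) (b - t)) ≤ t - a := (min_le_right _ _).trans (min_le_left _ _)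
    have m3 : min δ (min (t - a) (b - t)) ≤ b - t := (min_le_right _ _).trans (min_le_right _ _)
    have hst' := abs_lt.1 hst
    have e1 : a + (s - a) = s := by ring
    refine ⟨s - a, ⟨⟨by linarith [hst'.1], by linarith [hst'.2]⟩, ?_⟩, ?_, y,
      ball_subset_ball m1 hy, ?_⟩
    · rw [e1]
      exact hsG
    · have e2 : s - a - (t - a) = s - t := by ring
      rw [e2]
      exact hst.trans_le m1
    · show B < ‖u (a + (s - a)) y‖
      rw [e1]
      exact hB

end Pool.Agent.Y203.NS.RESTR
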