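import Pool.Agent.Y8.Stm7

/-!
# NS/Y8 S_TS1 and S_TS: final form of the count
-/

set_option autoImplicit false

open MeasureTheory Set Metric
open scoped ContDiff

namespace Pool.Agent.Y203.NS.TS

open H459R3.NS W221.NS Pool.Agent.Y8

theorem enst_nn (u : V → V) : 0 ≤ enstrophy u :=
  Finset.sum_nonneg fun _ _ => Finset.sum_nonneg fun _ _ => integral_nonneg fun _ => sq_nonneg _

/-- the enstrophy is integrable on subintervals -/
theorem enst_ion {ν T E D : ℝ} {G : Set ℝ} {u : ℝ → V → V} {p : ℝ → V → ℝ}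
    (h : Turb ν T E D G u p) {a b : ℝ} (ha : 0 ≤ a) (hb : b ≤ T) :
    IntegrableOn (fun t => enstrophy (u t)) (Ioo a b) := by
  have h1 : IntegrableOn (fun t => enstrophy (u t)) (Ioo a b ∩ G) :=
    h.enst_int.mono_set inter_subset_right
  refine h1.congr_set_ae ?_
  have h2 : volume (Ioo a b \ G) = 0 :=
    measure_mono_null (sdiff_subset_sdiff_left (Ioo_subset_Ioo ha hb)) h.fullG
  refine Filter.EventuallyLE.antisymm ?_ inter_subset_left.eventuallyLE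
  rw [ae_le_set]
  refine measure_mono_null ?_ h2
  intro t ht
  exact ⟨ht.1, fun h3 => ht.2 ⟨ht.1, h3⟩⟩

theorem rr_pos (n : ℕ) : 0 < rr n := by
  unfold rr
  positivity

theorem rr_add (n m : ℕ) : rr (n + m) = rr n * rr m := by
  unfold rr
  rw [pow_add]

theorem rr_rpow (n : ℕ) (x : ℝ) : rr n ^ x = (2 : ℝ) ^ (-(x * n)) := by
  unfold rr
  rw [one_div, inv_pow, ← Real.rpow_natCast, ← Real.rpow_neg (by norm_num),
    ← Real.rpow_mul (by norm_num)]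
  congr 1
  ring

/-- choice of the dyadic scale of the length of the interval -/
theorem scale_i {n : ℕ} {L : ℝ} (hL0 : 0 ≤ L) (hL : L ≤ rr (n + 3) ^ 2) :
    ∃ i : ℕ, 3 ≤ i ∧ L ≤ rr (n + i) ^ 2 ∧
      (2 : ℝ) ^ (-(20 / 3 : ℝ) * i) * (2 : ℝ) ^ ((5 / 3 : ℝ) * n) ≤
        2 ^ n + 2 ^ (20 / 3 : ℝ) * ((L / rr n ^ 2) ^ (10 / 3 : ℝ) * (2 : ℝ) ^ ((5 / 3 : ℝ) * n)) := by
  have hX : 0 ≤ 2 ^ (20 / 3 : ℝ) * ((L / rr n ^ 2) ^ (10 / 3 : ℝ) * (2 : ℝ) ^ ((5 / 3 : ℝ) * n)) := by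
    have h1 : 0 ≤ L / rr n ^ 2 := div_nonneg hL0 (by positivity)
    positivity
  by_cases hbig : L ≤ rr (n + (n + 3)) ^ 2
  · refine ⟨n + 3, by omega, hbig, ?_⟩
    have h1 : (2 : ℝ) ^ (-(20 / 3 : ℝ) * ((n + 3 : ℕ) : ℝ)) * (2 : ℝ) ^ ((5 / 3 : ℝ) * n) ≤ 2 ^ n := by
      rw [← Real.rpow_add (by norm_num), ← Real.rpow_natCast 2 n]
      refine Real.rpow_le_rpow_of_exponent_le (by norm_num) ?_
      push_cast
      have : (0 : ℝ) ≤ n := Nat.cast_nonneg n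
      linarith
    linarith
  · -- the last scale
    have hex : ∃ j : ℕ, ¬ L ≤ rr (n + (3 + j)) ^ 2 := ⟨n, by rwa [add_comm 3 n]⟩
    classical
    have hspec := Nat.find_spec hex
    have hmin := fun m => Nat.find_min hex (m := m)
    set j := Nat.find hex with hj
    have hj0 : j ≠ 0 := by
      intro h0
      rw [h0] at hspec
      exact hspec hL
    obtain ⟨i', hi'⟩ := Nat.exists_eq_succ_of_ne_zero hj0
    have h1 := hmin i' (by omega)
    rw [not_not] at h1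
    refine ⟨3 + i', by omega, h1, ?_⟩
    rw [hi', not_le] at hspec
    have h2 : rr (n + (3 + (i' + 1))) = rr n * (rr (3 + i') / 2) := by
      rw [rr_add]
      congr 1
      unfold rr
      rw [← add_assoc, pow_succ]
      ring
    have h2' : rr (n + (3 + i'.succ)) = rr n * (rr (3 + i') / 2) := h2
    rw [h2', mul_pow, div_pow] at hspec
    have hrn := rr_pos n
    have hri := rr_pos (3 + i')
    have h3 : rr (3 + i') ^ 2 ≤ 4 * (L / rr n ^ 2) := by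
      rw [mul_div_assoc', le_div_iff₀ (by positivity)]
      nlinarith
    have h4 : (2 : ℝ) ^ (-(20 / 3 : ℝ) * ((3 + i' : ℕ) : ℝ)) = (rr (3 + i') ^ 2) ^ (10 / 3 : ℝ) := by
      rw [← Real.rpow_natCast (rr (3 + i')) 2, ← Real.rpow_mul hri.le, rr_rpow]
      congr 1
      push_cast
      ring
    have h5 : (rr (3 + i') ^ 2) ^ (10 / 3 : ℝ) ≤ (4 * (L / rr n ^ 2)) ^ (10 / 3 : ℝ) :=
      Real.rpow_le_rpow (by positivity) h3 (by norm_num)
    have h6 : (4 * (L / rr n ^ 2)) ^ (10 / 3 : ℝ) =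
        2 ^ (20 / 3 : ℝ) * (L / rr n ^ 2) ^ (10 / 3 : ℝ) := by
      rw [Real.mul_rpow (by norm_num) (div_nonneg hL0 (by positivity))]
      congr 1
      rw [show (4 : ℝ) = 2 ^ (2 : ℝ) by norm_num, ← Real.rpow_mul (by norm_num)]
      norm_num
    have h7 : (2 : ℝ) ^ (-(20 / 3 : ℝ) * ((3 + i' : ℕ) : ℝ)) * (2 : ℝ) ^ ((5 / 3 : ℝ) * n) ≤
        2 ^ (20 / 3 : ℝ) * ((L / rr n ^ 2) ^ (10 / 3 : ℝ) * (2 : ℝ) ^ ((5 / 3 : ℝ) * n)) := by
      rw [h4, ← mul_assoc, ← h6]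
      exact mul_le_mul_of_nonneg_right h5 (by positivity)
    have h8 : (0 : ℝ) ≤ 2 ^ n := by positivity
    linarith

/-- the numerical part of the count on short intervals -/
theorem numeric {n : ℕ} {r L : ℝ} (hr : 0 < r) (h1 : rr n ≤ r) (h2 : r ≤ 2 * rr n) (hL : 0 ≤ L) :
    r * (2 ^ n + (2 ^ n + 2 ^ (20 / 3 : ℝ) *
      ((L / rr n ^ 2) ^ (10 / 3 : ℝ) * (2 : ℝ) ^ ((5 / 3 : ℝ) * n)))) ≤
      2 ^ (15 : ℝ) * (1 + r ^ (-(2 / 3) : ℝ) * (L / r ^ 2) ^ (10 / 3 : ℝ)) := by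
  have hn := rr_pos n
  have e1 : (2 : ℝ) ^ n = (rr n)⁻¹ := by
    unfold rr
    rw [one_div, inv_pow, inv_inv]
  have e2 : (2 : ℝ) ^ ((5 / 3 : ℝ) * n) = rr n ^ (-(5 / 3) : ℝ) := by
    rw [rr_rpow]
    congr 1
    ring
  have h3 : r * (rr n)⁻¹ ≤ 2 := by
    rw [← div_eq_mul_inv, div_le_iff₀ hn]
    exact h2
  have h4 : L / rr n ^ 2 ≤ 4 * (L / r ^ 2) := by
    rw [mul_div_assoc', div_le_div_iff₀ (by positivity) (by positivity)]
    have : r ^ 2 ≤ 4 * rr n ^ 2 := by nlinarith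
    nlinarith
  have h5 : (L / rr n ^ 2) ^ (10 / 3 : ℝ) ≤ 2 ^ (20 / 3 : ℝ) * (L / r ^ 2) ^ (10 / 3 : ℝ) := by
    have h6 : (4 * (L / r ^ 2)) ^ (10 / 3 : ℝ) =
        2 ^ (20 / 3 : ℝ) * (L / r ^ 2) ^ (10 / 3 : ℝ) := by
      rw [Real.mul_rpow (by norm_num) (div_nonneg hL (by positivity))]
      congr 1
      rw [show (4 : ℝ) = 2 ^ (2 : ℝ) by norm_num, ← Real.rpow_mul (by norm_num)]
      norm_num
    rw [← h6]
    exact Real.rpow_le_rpow (div_nonneg hL (by positivity)) h4 (by norm_num)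
  have h6 : rr n ^ (-(5 / 3) : ℝ) ≤ 2 ^ (5 / 3 : ℝ) * r ^ (-(5 / 3) : ℝ) := by
    have h7 : r / 2 ≤ rr n := by linarith
    have h8 : rr n ^ (-(5 / 3) : ℝ) ≤ (r / 2) ^ (-(5 / 3) : ℝ) :=
      Real.rpow_le_rpow_of_nonpos (by positivity) h7 (by norm_num)
    refine h8.trans (le_of_eq ?_)
    have e3 : (2 : ℝ) ^ (-(5 / 3) : ℝ) = (2 ^ (5 / 3 : ℝ))⁻¹ := Real.rpow_neg (by norm_num) (5 / 3)
    rw [Real.div_rpow hr.le (by norm_num), e3, div_inv_eq_mul, mul_comm]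
  have h7 : r * r ^ (-(5 / 3) : ℝ) = r ^ (-(2 / 3) : ℝ) := by
    nth_rewrite 1 [← Real.rpow_one r]
    rw [← Real.rpow_add hr]
    norm_num
  have hY : 0 ≤ (L / r ^ 2) ^ (10 / 3 : ℝ) := by positivity
  have hZ : 0 ≤ (L / rr n ^ 2) ^ (10 / 3 : ℝ) := by positivity
  rw [e1, e2]
  have h8 : (L / rr n ^ 2) ^ (10 / 3 : ℝ) * rr n ^ (-(5 / 3) : ℝ) ≤
      (2 ^ (20 / 3 : ℝ) * (L / r ^ 2) ^ (10 / 3 : ℝ)) * (2 ^ (5 / 3 : ℝ) * r ^ (-(5 / 3) : ℝ)) :=
    mul_le_mul h5 h6 (by positivity) (by positivity)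
  have h9 : (2 : ℝ) ^ (15 : ℝ) = 2 ^ (20 / 3 : ℝ) * (2 ^ (20 / 3 : ℝ) * 2 ^ (5 / 3 : ℝ)) := by
    rw [← Real.rpow_add (by norm_num), ← Real.rpow_add (by norm_num)]
    norm_num
  have h10 : (4 : ℝ) ≤ 2 ^ (15 : ℝ) := by norm_num
  calc r * ((rr n)⁻¹ + ((rr n)⁻¹ + 2 ^ (20 / 3 : ℝ) *
      ((L / rr n ^ 2) ^ (10 / 3 : ℝ) * rr n ^ (-(5 / 3) : ℝ)))) =
      2 * (r * (rr n)⁻¹) + r * (2 ^ (20 / 3 : ℝ) *
      ((L / rr n ^ 2) ^ (10 / 3 : ℝ) * rr n ^ (-(5 / 3) : ℝ))) := by ring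
    _ ≤ 2 * 2 + r * (2 ^ (20 / 3 : ℝ) *
      ((2 ^ (20 / 3 : ℝ) * (L / r ^ 2) ^ (10 / 3 : ℝ)) * (2 ^ (5 / 3 : ℝ) * r ^ (-(5 / 3) : ℝ)))) := by
        gcongr
    _ = 4 + 2 ^ (15 : ℝ) * ((r * r ^ (-(5 / 3) : ℝ)) * (L / r ^ 2) ^ (10 / 3 : ℝ)) := by
        rw [h9]
        ring
    _ ≤ 2 ^ (15 : ℝ) * (1 + r ^ (-(2 / 3) : ℝ) * (L / r ^ 2) ^ (10 / 3 : ℝ)) := by
        rw [h7]
        linarith

theorem t_TS1 : S_RESTR → S_FINL → S_WINL → S_TS1 := by
  intro hR hF hW E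
  obtain ⟨CF, hCF, hF⟩ := hF E
  obtain ⟨CW, hCW, hW⟩ := hW E
  set c0 : ℝ := (256 : ℝ) ^ (10 / 3 : ℝ) with hc0
  have hc01 : 1 ≤ c0 := Real.one_le_rpow (by norm_num) (by norm_num)
  refine ⟨CF * c0 + CW * 2 ^ (15 : ℝ), by positivity, ?_⟩
  intro T D G u p hT r α β hr hr1 hαβ hα hβ S hS hz
  set a : ℝ := α - 2 * r ^ 2 with ha
  set b : ℝ := β + 2 * r ^ 2 with hb
  have ha0 : 0 ≤ a := by rw [ha]; linarith
  have hr2 : 0 < r ^ 2 := by positivity
  have hab : a < b := by rw [ha, hb]; linarith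
  obtain ⟨hT', hsing⟩ := hR 1 T E D G u p hT a b ha0 hab hβ.le
  have hI : (b - a) + ∫ t in Ioo a b, enstrophy (u t) = ∫ t in Ioo a b, (1 + enstrophy (u t)) := by
    have h1 : IntegrableOn (fun _ : ℝ => (1 : ℝ)) (Ioo a b) :=
      integrableOn_const (by simp)
    rw [integral_add h1 (enst_ion hT ha0 hβ.le)]
    congr 1
    rw [setIntegral_const, smul_eq_mul, mul_one]
    simp [Measure.real, Real.volume_Ioo, hab.le]
  have hI0 : 0 ≤ (b - a) + ∫ t in Ioo a b, enstrophy (u t) := by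
    have h1 : 0 ≤ ∫ t in Ioo a b, enstrophy (u t) := integral_nonneg fun t => enst_nn _
    linarith
  rw [← hI]
  set I : ℝ := (b - a) + ∫ t in Ioo a b, enstrophy (u t) with hIdef
  classical
  set f : ℝ × V → ℝ × V := fun z => (z.1 - a, z.2) with hf
  have hinj : Function.Injective f := by
    rintro ⟨t, x⟩ ⟨t', x'⟩ hh
    simp only [hf, Prod.mk.injEq] at hh
    obtain ⟨h1, h2⟩ := hh
    rw [show t = t' by linarith, h2]
  have hcard : (S.image f).card = S.card := Finset.card_image_of_injective S hinj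
  have hsep : Sep r (S.image f) := by
    intro z hz' w hw' hne
    obtain ⟨z, hzS, rfl⟩ := Finset.mem_image.1 hz'
    obtain ⟨w, hwS, rfl⟩ := Finset.mem_image.1 hw'
    have hne' : z ≠ w := fun e => hne (by rw [e])
    have e1 : (f z).1 - (f w).1 = z.1 - w.1 := by
      show z.1 - a - (w.1 - a) = z.1 - w.1
      ring
    rw [e1]
    exact hS z hzS w hwS hne'
  have hpts : ∀ z ∈ S.image f, z.1 ∈ Icc (α - a) (β - a) ∧ z.2 ∈ cube ∧
      SingPt {t | t ∈ Ioo 0 (b - a) ∧ a + t ∈ G} (fun t => u (a + t)) z.1 z.2 := by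
    intro z hz'
    obtain ⟨z, hzS, rfl⟩ := Finset.mem_image.1 hz'
    obtain ⟨h2, h3, h4⟩ := hz z hzS
    refine ⟨⟨?_, ?_⟩, h3, hsing z.1 z.2 ⟨?_, ?_⟩ h4⟩
    · show α - a ≤ z.1 - a
      linarith [h2.1]
    · show z.1 - a ≤ β - a
      linarith [h2.2]
    · linarith [h2.1]
    · linarith [h2.2]
  have hαa : α - a = 2 * r ^ 2 := by rw [ha]; ring
  have hba : b - a = β - a + 2 * r ^ 2 := by rw [hb]; ring
  have hβa : β - a = β - α + 2 * r ^ 2 := by rw [ha]; ring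
  -- the count on the whole interval
  have h1 := hF _ _ _ _ _ hT' r hr hr1 (S.image f) hsep (by
    intro z hz'
    obtain ⟨h2, h3, h4⟩ := hpts z hz'
    refine ⟨?_, ?_, h3, h4⟩
    · linarith [h2.1]
    · linarith [h2.2])
  rw [hcard] at h1
  set Y : ℝ := r ^ (-(2 / 23) : ℝ) with hY
  set X : ℝ := r ^ (-(2 / 3) : ℝ) * ((β - α) / r ^ 2) ^ (10 / 3 : ℝ) with hX
  have hL0 : 0 ≤ β - α := by linarith
  have hY0 : 0 < Y := by positivity
  have hX0 : 0 ≤ X := by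
    have : 0 ≤ (β - α) / r ^ 2 := by positivity
    positivity
  have hcY : (S.card : ℝ) * r ≤ CF * I * Y := by
    have e1 : r ^ (-(25 / 23) : ℝ) * r = Y := by
      nth_rewrite 2 [← Real.rpow_one r]
      rw [← Real.rpow_add hr, hY]
      norm_num
    calc (S.card : ℝ) * r ≤ (CF * I * r ^ (-(25 / 23) : ℝ)) * r := by gcongr
      _ = CF * I * (r ^ (-(25 / 23) : ℝ) * r) := by ring
      _ = CF * I * Y := by rw [e1]
  have hmin0 : 0 ≤ min Y X := le_min hY0.le hX0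
  have hCFI : 0 ≤ CF * I := mul_nonneg hCF.le hI0
  have hCWI : 0 ≤ CW * I := mul_nonneg hCW.le hI0
  -- the scale
  obtain ⟨m, hm1, hm2⟩ := exists_nat_pow_near_of_lt_one hr hr1 (by norm_num : (0 : ℝ) < 1 / 2)
    (by norm_num : (1 / 2 : ℝ) < 1)
  have hn1 : rr (m + 1) ≤ r := hm1.le
  have hn2 : r ≤ 2 * rr (m + 1) := by
    unfold rr
    rw [pow_succ]
    linarith
  have hrn := rr_pos (m + 1)
  have hrr2 : rr (m + 1) ^ 2 ≤ r ^ 2 := pow_le_pow_left₀ hrn.le hn1 2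
  by_cases hshort : β - α ≤ rr (m + 1 + 3) ^ 2
  · obtain ⟨i, hi3, hi, hnum⟩ := scale_i hL0 hshort
    have hsep' : Sep (rr (m + 1)) (S.image f) := by
      intro z hz' w hw' hne
      rcases hsep z hz' w hw' hne with h2 | h2
      · exact Or.inl (hrr2.trans h2)
      · exact Or.inr (hn1.trans h2)
    have h2 := hW _ _ _ _ _ hT' (m + 1) i (α - a) (β - a) hi3 (by
      have : β - a - (α - a) = β - α := by ring
      rw [this]
      exact hi) (by linarith) (by linarith) (S.image f) hsep' hpts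
    rw [hcard] at h2
    have h3 := numeric hr hn1 hn2 hL0
    have h4 : (S.card : ℝ) * r ≤ CW * I * (2 ^ (15 : ℝ) * (1 + X)) := by
      calc (S.card : ℝ) * r ≤ (CW * I * (2 ^ (m + 1) + (2 ^ (m + 1) + 2 ^ (20 / 3 : ℝ) *
            (((β - α) / rr (m + 1) ^ 2) ^ (10 / 3 : ℝ) *
              (2 : ℝ) ^ ((5 / 3 : ℝ) * ((m + 1 : ℕ) : ℝ)))))) * r := by
            refine mul_le_mul_of_nonneg_right (h2.trans ?_) hr.le
            refine mul_le_mul_of_nonneg_left ?_ hCWI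
            linarith
        _ = CW * I * (r * (2 ^ (m + 1) + (2 ^ (m + 1) + 2 ^ (20 / 3 : ℝ) *
            (((β - α) / rr (m + 1) ^ 2) ^ (10 / 3 : ℝ) *
              (2 : ℝ) ^ ((5 / 3 : ℝ) * ((m + 1 : ℕ) : ℝ)))))) := by ring
        _ ≤ CW * I * (2 ^ (15 : ℝ) * (1 + X)) := mul_le_mul_of_nonneg_left h3 hCWI
    rcases le_total Y X with hle | hle
    · rw [min_eq_left hle]
      calc (S.card : ℝ) * r ≤ CF * I * Y := hcY
        _ ≤ (CF * c0 + CW * 2 ^ (15 : ℝ)) * (1 + Y) * I := by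
            have e1 : CF * I * Y ≤ CF * I * (c0 * (1 + Y)) := by
              refine mul_le_mul_of_nonneg_left ?_ hCFI
              nlinarith
            have e2 : 0 ≤ CW * I * (2 ^ (15 : ℝ) * (1 + Y)) := by positivity
            calc CF * I * Y ≤ CF * I * (c0 * (1 + Y)) + CW * I * (2 ^ (15 : ℝ) * (1 + Y)) := by
                  linarith
              _ = _ := by ring
    · rw [min_eq_right hle]
      calc (S.card : ℝ) * r ≤ CW * I * (2 ^ (15 : ℝ) * (1 + X)) := h4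
        _ ≤ (CF * c0 + CW * 2 ^ (15 : ℝ)) * (1 + X) * I := by
            have e2 : 0 ≤ CF * I * (c0 * (1 + X)) := by positivity
            calc CW * I * (2 ^ (15 : ℝ) * (1 + X)) ≤
                CF * I * (c0 * (1 + X)) + CW * I * (2 ^ (15 : ℝ) * (1 + X)) := by linarith
              _ = _ := by ring
  · -- long intervals
    rw [not_le] at hshort
    have h2 : rr (m + 1 + 3) = rr (m + 1) / 8 := by
      unfold rr
      rw [pow_add]
      norm_num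
      ring
    have h3 : 1 / 256 ≤ (β - α) / r ^ 2 := by
      rw [le_div_iff₀ hr2]
      rw [h2] at hshort
      nlinarith
    have h4 : Y ≤ c0 * X := by
      have e1 : (1 / 256 : ℝ) ^ (10 / 3 : ℝ) ≤ ((β - α) / r ^ 2) ^ (10 / 3 : ℝ) :=
        Real.rpow_le_rpow (by norm_num) h3 (by norm_num)
      have e2 : c0 * (1 / 256 : ℝ) ^ (10 / 3 : ℝ) = 1 := by
        rw [hc0, ← Real.mul_rpow (by norm_num) (by norm_num)]
        norm_num
      have e3 : Y ≤ r ^ (-(2 / 3) : ℝ) :=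
        Real.rpow_le_rpow_of_exponent_ge hr hr1 (by norm_num)
      calc Y ≤ r ^ (-(2 / 3) : ℝ) * 1 := by rw [mul_one]; exact e3
        _ = r ^ (-(2 / 3) : ℝ) * (c0 * (1 / 256 : ℝ) ^ (10 / 3 : ℝ)) := by rw [e2]
        _ ≤ r ^ (-(2 / 3) : ℝ) * (c0 * ((β - α) / r ^ 2) ^ (10 / 3 : ℝ)) := by gcongr
        _ = c0 * X := by rw [hX]; ring
    have h5 : Y ≤ c0 * (1 + min Y X) := by
      rcases le_total Y X with hle | hle
      · rw [min_eq_left hle]
        nlinarith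
      · rw [min_eq_right hle]
        nlinarith
    calc (S.card : ℝ) * r ≤ CF * I * Y := hcY
      _ ≤ CF * I * (c0 * (1 + min Y X)) := mul_le_mul_of_nonneg_left h5 hCFI
      _ ≤ CF * I * (c0 * (1 + min Y X)) + CW * I * (2 ^ (15 : ℝ) * (1 + min Y X)) := by
          have : 0 ≤ CW * I * (2 ^ (15 : ℝ) * (1 + min Y X)) := by positivity
          linarith
      _ = _ := by ring

theorem enstrophy_sm (c : ℝ) (v : V → V) :
    enstrophy (fun x => c • v x) = c ^ 2 * enstrophy v := by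
  unfold enstrophy
  rw [Finset.mul_sum]
  refine Finset.sum_congr rfl fun i _ => ?_
  rw [Finset.mul_sum]
  refine Finset.sum_congr rfl fun j _ => ?_
  rw [← integral_const_mul]
  refine integral_congr_ae (ae_of_all _ fun x => ?_)
  simp only
  have e1 : pd j (fun y => (c • v y) i) x = c * pd j (fun y => v y i) x := by
    unfold pd
    have : (fun y => (c • v y) i) = c • (fun y => v y i) := rfl
    rw [this, fderiv_const_smul_field]
    rfl
  rw [e1]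
  ring

theorem t_TS : S_WSCAL → S_TS1 → S_TS := by
  intro hsc hts ν E hν
  obtain ⟨C, hC, h⟩ := hts (E / ν)
  refine ⟨C * (ν * (1 + ν⁻¹ ^ 2)), by positivity, ?_⟩
  intro T D G u p hT r α β hr hr1 hαβ hα hβ S hS hz
  obtain ⟨hT', hsing⟩ := hsc ν T E D G u p hν hT
  classical
  set f : ℝ × V → ℝ × V := fun z => (ν * z.1, z.2) with hf
  have hinj : Function.Injective f := by
    rintro ⟨t, x⟩ ⟨t', x'⟩ hh
    simp only [hf, Prod.mk.injEq] at hh
    obtain ⟨h1, h2⟩ := hh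
    rw [mul_left_cancel₀ hν.ne' h1, h2]
  have hcard : (S.image f).card = S.card := Finset.card_image_of_injective S hinj
  have hsep : Sep r (S.image f) := by
    intro z hz' w hw' hne
    obtain ⟨z, hzS, rfl⟩ := Finset.mem_image.1 hz'
    obtain ⟨w, hwS, rfl⟩ := Finset.mem_image.1 hw'
    have hne' : z ≠ w := fun e => hne (by rw [e])
    rcases hS z hzS w hwS hne' with h1 | h1
    · left
      show r ^ 2 ≤ |ν * z.1 - ν * w.1|
      rw [← mul_sub, abs_mul, abs_of_pos hν]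
      exact h1
    · right
      exact h1
  have h1 := h _ _ _ _ _ hT' r (ν * α) (ν * β) hr hr1 (mul_le_mul_of_nonneg_left hαβ hν.le)
    hα hβ (S.image f) hsep (by
    intro z hz'
    obtain ⟨z, hzS, rfl⟩ := Finset.mem_image.1 hz'
    obtain ⟨h2, h3, h4⟩ := hz z hzS
    refine ⟨⟨?_, ?_⟩, h3, hsing z.1 z.2 h4⟩
    · exact mul_le_mul_of_nonneg_left h2.1 hν.le
    · exact mul_le_mul_of_nonneg_left h2.2 hν.le)
  rw [hcard, ← mul_sub] at h1
  set J : ℝ := ∫ t in Ioo (α - 2 * r ^ 2 / ν) (β + 2 * r ^ 2 / ν), (1 + enstrophy (u t)) with hJ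
  -- the change of variables
  have ha0 : 0 ≤ α - 2 * r ^ 2 / ν := by
    have : 2 * r ^ 2 / ν < α := by
      rw [div_lt_iff₀ hν]
      linarith
    linarith
  have hb0 : β + 2 * r ^ 2 / ν ≤ T := by
    have e1 : ν * (2 * r ^ 2 / ν) = 2 * r ^ 2 := by field_simp
    have e2 : ν * (β + 2 * r ^ 2 / ν) < ν * T := by
      rw [mul_add, e1]
      exact hβ
    exact (lt_of_mul_lt_mul_left e2 hν.le).le
  have hr2 : 0 ≤ 2 * r ^ 2 / ν := by positivity
  have hab : α - 2 * r ^ 2 / ν ≤ β + 2 * r ^ 2 / ν := by linarith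
  have hion := enst_ion hT ha0 hb0
  have h1i : IntegrableOn (fun _ : ℝ => (1 : ℝ)) (Ioo (α - 2 * r ^ 2 / ν) (β + 2 * r ^ 2 / ν)) :=
    integrableOn_const (by simp)
  have hcv : ∫ t in Ioo (ν * α - 2 * r ^ 2) (ν * β + 2 * r ^ 2),
      (1 + enstrophy (fun x => ν⁻¹ • u (t / ν) x)) =
      ν * ∫ t in Ioo (α - 2 * r ^ 2 / ν) (β + 2 * r ^ 2 / ν), (1 + ν⁻¹ ^ 2 * enstrophy (u t)) := by
    simp only [enstrophy_sm]
    have e1 : ν * α - 2 * r ^ 2 = ν * (α - 2 * r ^ 2 / ν) := by field_simp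
    have e2 : ν * β + 2 * r ^ 2 = ν * (β + 2 * r ^ 2 / ν) := by field_simp
    rw [e1, e2, ← integral_Ioc_eq_integral_Ioo, ← integral_Ioc_eq_integral_Ioo,
      ← intervalIntegral.integral_of_le hab,
      ← intervalIntegral.integral_of_le (mul_le_mul_of_nonneg_left hab hν.le)]
    have e3 := intervalIntegral.integral_comp_div (a := ν * (α - 2 * r ^ 2 / ν))
      (b := ν * (β + 2 * r ^ 2 / ν)) (fun t => 1 + ν⁻¹ ^ 2 * enstrophy (u t)) hν.ne'
    rw [e3, mul_div_cancel_left₀ _ hν.ne', mul_div_cancel_left₀ _ hν.ne', smul_eq_mul]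
  have hle : ∫ t in Ioo (α - 2 * r ^ 2 / ν) (β + 2 * r ^ 2 / ν), (1 + ν⁻¹ ^ 2 * enstrophy (u t)) ≤
      (1 + ν⁻¹ ^ 2) * J := by
    rw [hJ, ← integral_const_mul]
    apply integral_mono_of_nonneg
    · exact Filter.Eventually.of_forall fun t => by
        have := enst_nn (u t)
        positivity
    · exact (h1i.add hion).const_mul _
    · refine Filter.Eventually.of_forall fun t => ?_
      have := enst_nn (u t)
      have h5 : 0 ≤ ν⁻¹ ^ 2 := by positivity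
      show 1 + ν⁻¹ ^ 2 * enstrophy (u t) ≤ (1 + ν⁻¹ ^ 2) * (1 + enstrophy (u t))
      nlinarith
  rw [hcv] at h1
  have hmin0 : 0 ≤ min (r ^ (-(2 / 23) : ℝ))
      (r ^ (-(2 / 3) : ℝ) * (ν * (β - α) / r ^ 2) ^ (10 / 3 : ℝ)) := by
    have : 0 ≤ ν * (β - α) / r ^ 2 := div_nonneg (mul_nonneg hν.le (by linarith)) (by positivity)
    exact le_min (by positivity) (by positivity)
  refine h1.trans ?_
  calc C * (1 + min (r ^ (-(2 / 23) : ℝ))
      (r ^ (-(2 / 3) : ℝ) * (ν * (β - α) / r ^ 2) ^ (10 / 3 : ℝ))) *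
      (ν * ∫ t in Ioo (α - 2 * r ^ 2 / ν) (β + 2 * r ^ 2 / ν), (1 + ν⁻¹ ^ 2 * enstrophy (u t))) ≤
      C * (1 + min (r ^ (-(2 / 23) : ℝ))
      (r ^ (-(2 / 3) : ℝ) * (ν * (β - α) / r ^ 2) ^ (10 / 3 : ℝ))) *
      (ν * ((1 + ν⁻¹ ^ 2) * J)) := by gcongr
    _ = _ := by ring

end Pool.Agent.Y203.NS.TS
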