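import Pool.Agent.Y8.Stm6
import Pool.Agent.W356.ME.BASE2
import Pool.Agent.Y458.NS.WB

/-!
# NS/Y8 S_WBASE2: the first step of the weak local theorem
-/

set_option autoImplicit false

open MeasureTheory Set Metric
open scoped ContDiff

namespace Pool.Agent.Y203.NS.WBASE2

open H459R3.NS W221.NS Pool.Agent.Y8 W356.ME

/-- the right side of the energy inequality with the standard test function -/
theorem rhs_bound (Ce : ℝ) (hCe : 0 < Ce) (h2 : S_CUT2) (h3 : S_WB) : ∃ C₁ : ℝ, 0 < C₁ ∧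
    ∀ (v W : ℝ → V → V) (G : ℝ → ℝ), ∀ t ∈ Ioo (-1 : ℝ) 0, ∀ (P : V → ℝ),
      Slice2 (v t) (W t) (fun x i => deriv (fun s => W s x i) t) P (G t) → ∀ D : ℝ,
        D ≤ -2 * (∫ z, gsq (W t) z * W605.MD.PH t z)
              + (∫ z, nsq (W t) z * (deriv (fun s => W605.MD.PH s z) t + lap (W605.MD.PH t) z))
              + (∫ z, nsq (W t) z * adv (v t) (W605.MD.PH t) z)
              + 2 * (∫ z, P z * adv (W t) (W605.MD.PH t) z)
              + Ce * (√(G t) * (∫ z, nsq (W t) z * W605.MD.PH t z)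
                + (√(G t) + G t) * ∫ z, √(nsq (W t) z) * W605.MD.PH t z) →
          D ≤ C₁ * G t * (1 + √(W605.MD.EE W t)) := by
  obtain ⟨Cc, hCc, hcut⟩ := h2
  obtain ⟨Cw, hCw, hwb⟩ := h3
  obtain ⟨L, hL0, hL⟩ := W605.MD.lap_k2_bound
  obtain ⟨N, hN0, hN⟩ := W605.MD.dchi_bound
  refine ⟨(N + L) * Cw + 2 * Cc + Ce * (4 * √Cw + 3), by positivity, ?_⟩
  intro v W G t ht P hP D hle
  have hG := G_nonneg2 hP
  have hW := hP.sW
  obtain ⟨hA, -, -, -⟩ := hwb _ _ _ _ _ hP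
  have hEA := (EE_le W t hW).trans hA
  have hE0 := W605.MD.EE_nonneg W t
  have t1 : 0 ≤ ∫ z, gsq (W t) z * W605.MD.PH t z :=
    integral_nonneg fun z => mul_nonneg (W605.MD.gsq_nonneg _ z) (W605.MD.PH_nonneg t z)
  have t2 := term2' hW hL (hN t ht)
  have t2' : (N + L) * A2 0 1 (W t) ≤ (N + L) * Cw * G t := by
    rw [mul_assoc]
    exact mul_le_mul_of_nonneg_left hA (by positivity)
  have c1 := W605.MD.chi_nonneg t
  have c2 := W605.MD.chi_le_one t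
  have e3 : √(∫ z, nsq (W t) z * kap z ^ 2) * W605.MD.chi t = √(W605.MD.EE W t) := by
    rw [W605.MD.EE_eq, Real.sqrt_mul' _ (sq_nonneg _), Real.sqrt_sq c1]
  have e4 : 0 ≤ √(∫ z, nsq (W t) z * kap z ^ 2) := Real.sqrt_nonneg _
  have e5 : 0 ≤ √(W605.MD.EE W t) := Real.sqrt_nonneg _
  have e6 : √(∫ z, nsq (W t) z * kap z ^ 2) * W605.MD.chi t ^ 2 ≤ √(W605.MD.EE W t) := by
    have : √(∫ z, nsq (W t) z * kap z ^ 2) * W605.MD.chi t ^ 2 =
      √(W605.MD.EE W t) * W605.MD.chi t := by rw [← e3]; ring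
    rw [this]
    nlinarith
  have t3 : (∫ z, nsq (W t) z * adv (v t) (W605.MD.PH t) z)
      + 2 * (∫ z, P z * adv (W t) (W605.MD.PH t) z) ≤ 2 * (Cc * G t * √(W605.MD.EE W t)) := by
    have a1 : ∀ (f : V → ℝ) (u : V → V), ∫ z, f z * adv u (W605.MD.PH t) z =
        (∫ z, f z * adv u (fun y => kap y ^ 2) z) * W605.MD.chi t ^ 2 := by
      intro f u
      rw [← integral_mul_const]
      apply integral_congr_ae
      filter_upwards with z
      have : adv u (W605.MD.PH t) z = adv u (fun y => kap y ^ 2) z * W605.MD.chi t ^ 2 :=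
        W605.MD.adv_mul_const u W605.MD.k2_smooth _ z
      rw [this]; ring
    rw [a1, a1]
    have a2 := hcut (v t) (W t) _ P (G t) hP
    obtain ⟨X, hX⟩ : ∃ X, X = ∫ z, nsq (W t) z * adv (v t) (fun y => kap y ^ 2) z := ⟨_, rfl⟩
    obtain ⟨Y, hY⟩ : ∃ Y, Y = ∫ z, P z * adv (W t) (fun y => kap y ^ 2) z := ⟨_, rfl⟩
    rw [← hX, ← hY] at a2 ⊢
    have a3 := le_abs_self X
    have a4 := le_abs_self Y
    have a5 := abs_nonneg X
    have a6 := sq_nonneg (W605.MD.chi t)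
    have a7 : X + 2 * Y ≤ 2 * (Cc * G t * √(∫ z, nsq (W t) z * kap z ^ 2)) := by linarith
    calc X * W605.MD.chi t ^ 2 + 2 * (Y * W605.MD.chi t ^ 2) = (X + 2 * Y) * W605.MD.chi t ^ 2 := by ring
      _ ≤ (2 * (Cc * G t * √(∫ z, nsq (W t) z * kap z ^ 2))) * W605.MD.chi t ^ 2 :=
          mul_le_mul_of_nonneg_right a7 a6
      _ = 2 * (Cc * G t) * (√(∫ z, nsq (W t) z * kap z ^ 2) * W605.MD.chi t ^ 2) := by ring
      _ ≤ 2 * (Cc * G t) * √(W605.MD.EE W t) := mul_le_mul_of_nonneg_left e6 (by positivity)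
      _ = _ := by ring
  have hsG : 0 ≤ √(G t) := Real.sqrt_nonneg _
  have hsC : 0 ≤ √Cw := Real.sqrt_nonneg _
  have hsE : √(W605.MD.EE W t) ≤ √Cw * √(G t) := by
    rw [← Real.sqrt_mul hCw.le]
    exact Real.sqrt_le_sqrt hEA
  have hGE : √(G t) * √(W605.MD.EE W t) ≤ √Cw * G t := by
    calc √(G t) * √(W605.MD.EE W t) ≤ √(G t) * (√Cw * √(G t)) := mul_le_mul_of_nonneg_left hsE hsG
      _ = √Cw * (√(G t) * √(G t)) := by ring
      _ = √Cw * G t := by rw [Real.mul_self_sqrt hG]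
  have t4 : √(G t) * (∫ z, nsq (W t) z * W605.MD.PH t z) ≤ √Cw * G t * √(W605.MD.EE W t) := by
    have a1 : (∫ z, nsq (W t) z * W605.MD.PH t z) = √(W605.MD.EE W t) * √(W605.MD.EE W t) :=
      (Real.mul_self_sqrt hE0).symm
    rw [a1, ← mul_assoc]
    exact mul_le_mul_of_nonneg_right hGE e5
  have t5 : (√(G t) + G t) * (∫ z, √(nsq (W t) z) * W605.MD.PH t z) ≤
      3 * (√Cw * G t) + 3 * (G t * √(W605.MD.EE W t)) := by
    calc (√(G t) + G t) * (∫ z, √(nsq (W t) z) * W605.MD.PH t z)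
        ≤ (√(G t) + G t) * (3 * √(W605.MD.EE W t)) :=
          mul_le_mul_of_nonneg_left (lin_term W t hW) (by positivity)
      _ = 3 * (√(G t) * √(W605.MD.EE W t)) + 3 * (G t * √(W605.MD.EE W t)) := by ring
      _ ≤ _ := by linarith
  have t6 := mul_le_mul_of_nonneg_left (add_le_add t4 t5) hCe.le
  have hGE0 : 0 ≤ G t * √(W605.MD.EE W t) := mul_nonneg hG e5
  refine hle.trans ?_
  have hfin : (N + L) * Cw * G t + 2 * (Cc * G t * √(W605.MD.EE W t))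
      + Ce * (√Cw * G t * √(W605.MD.EE W t) + (3 * (√Cw * G t) + 3 * (G t * √(W605.MD.EE W t))))
      ≤ ((N + L) * Cw + 2 * Cc + Ce * (4 * √Cw + 3)) * G t * (1 + √(W605.MD.EE W t)) := by
    have b1 : 0 ≤ (N + L) * Cw * (G t * √(W605.MD.EE W t)) := by positivity
    have b2 : 0 ≤ Cc * G t := by positivity
    have b3 : 0 ≤ Ce * √Cw * G t := by positivity
    have b4 : 0 ≤ Ce * √Cw * (G t * √(W605.MD.EE W t)) := by positivity
    have b5 : 0 ≤ Ce * G t := by positivity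
    nlinarith
  linarith

theorem t_WBASE2 (h1 : S_EN2H) (h2 : S_CUT2) (h3 : S_WB) : S_WBASE2 := by
  obtain ⟨Ce, hCe, hen⟩ := h1
  obtain ⟨C₁, hC₁, hD⟩ := rhs_bound Ce hCe h2 h3
  refine ⟨2 * C₁ + C₁ ^ 2, 1, by positivity, one_pos, ?_⟩
  intro ε hε hε1 H v W F k G hyp t₁ ht₁ ht₁'
  have hG0 : ∀ t ∈ H, 0 ≤ G t := fun t ht => by
    obtain ⟨P, hP⟩ := hyp.slice t ht
    exact G_nonneg2 hP
  have hW : ∀ t ∈ H, ContDiff ℝ ∞ (W t) := fun t ht => by
    obtain ⟨P, hP⟩ := hyp.slice t ht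
    exact hP.sW
  have hae : ∀ᵐ t : ℝ, t ∈ Ioo (-1 : ℝ) 0 → t ∈ H := by
    have h1 := hyp.fullH
    rw [← compl_mem_ae_iff] at h1
    filter_upwards [h1] with t ht ht2
    by_contra h3
    exact ht ⟨ht2, h3⟩
  have hG0' : ∀ᵐ t ∂(volume.restrict (Ioo (-1 : ℝ) 0)), 0 ≤ G t := by
    filter_upwards [ae_restrict_of_ae hae, ae_restrict_mem measurableSet_Ioo] with t h1 h2
    exact hG0 t (h1 h2)
  have hEW : ∀ t, EW W W605.MD.PH (fun _ => 0) t = W605.MD.EE W t := by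
    intro t
    unfold EW mv W605.MD.EE
    simp only [sub_zero]
  have hEW' : EW W W605.MD.PH (fun _ => 0) = W605.MD.EE W := funext hEW
  have hder : ∀ t ∈ H, deriv (W605.MD.EE W) t ≤ C₁ * G t * (1 + √(W605.MD.EE W t)) := by
    intro t ht
    obtain ⟨P, hP⟩ := hyp.slice t ht
    obtain ⟨E', hE', hle⟩ := hen H v W W605.MD.PH hyp.openH hyp.smooth_v hyp.smooth_W
      W605.MD.PH_smooth.contDiffOn (fun s _ z hz => PH_zero s hz) t ht
      (fun z => W605.MD.PH_nonneg t z) P (G t) hP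
    have h5 : deriv (W605.MD.EE W) t = E' := hE'.deriv
    rw [h5]
    exact hD v W G t (hyp.subH ht) P hP E' hle
  -- the initial time
  obtain ⟨t', ht', ht'1, ht'2⟩ : ∃ t' ∈ H, -1 < t' ∧ t' < -7 / 8 := by
    by_contra hc
    push Not at hc
    have hsub : Ioo (-1 : ℝ) (-7 / 8) ⊆ Ioo (-1) 0 \ H := by
      intro t ht
      refine ⟨⟨ht.1, by linarith [ht.2]⟩, fun htH => ?_⟩
      have := hc t htH ht.1
      linarith [ht.2]
    have h5 := measure_mono_null hsub hyp.fullH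
    rw [Real.volume_Ioo, ENNReal.ofReal_eq_zero] at h5
    norm_num at h5
  have hE' : W605.MD.EE W t' = 0 := by
    rw [W605.MD.EE_eq, W605.MD.chi_zero (by linarith)]; ring
  -- the supremum of the energy
  obtain ⟨B, hB⟩ := hyp.bdd
  obtain ⟨X, hX⟩ : ∃ X : Set ℝ, X = (fun t => W605.MD.EE W t) '' (H ∩ Ici t') := ⟨_, rfl⟩
  have hXb : BddAbove X := by
    refine ⟨B, ?_⟩
    rw [hX]
    rintro _ ⟨t, ht, rfl⟩
    exact (EE_le W t (hW t ht.1)).trans (hB t ht.1)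
  have hXn : X.Nonempty := by
    rw [hX]
    exact ⟨_, t', ⟨ht', mem_Ici.2 le_rfl⟩, rfl⟩
  obtain ⟨S, hS⟩ : ∃ S, S = sSup X := ⟨_, rfl⟩
  have hle : ∀ t ∈ H, t' ≤ t → W605.MD.EE W t ≤ S := by
    intro t ht h
    rw [hS]
    apply le_csSup hXb
    rw [hX]
    exact ⟨t, ⟨ht, h⟩, rfl⟩
  have hS0 : 0 ≤ S := (W605.MD.EE_nonneg W _).trans (hle t' ht' le_rfl)
  have hMT : MT H (-1) 0 W605.MD.PH (fun _ => (0 : V)) (fun _ => (0 : V)) 1 :=
    { low := le_rfl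
      up := le_rfl
      sm := W605.MD.PH_smooth.contDiffOn
      rho := one_pos
      supp := fun t _ z hz => PH_zero t hz
      der := fun t _ => hasDerivAt_const t (0 : V)
      cont := continuousOn_const
      ysm := contDiffOn_const
      ins := fun t _ => by simp }
  have hkey : ∀ t ∈ H, t' ≤ t → W605.MD.EE W t ≤ C₁ * (1 + √S) * ε := by
    intro t ht h
    have ht2 := hyp.subH ht
    have hsub : Ioo t' t ⊆ Ioo (-1 : ℝ) 0 := Ioo_subset_Ioo ht'1.le ht2.2.le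
    obtain ⟨hi, hen⟩ := hyp.en (-1) 0 1 W605.MD.PH (fun _ => 0) (fun _ => 0) hMT t' ht' t ht
      ht'1 h ht2.2 (fun τ _ z => W605.MD.PH_nonneg τ z)
    rw [hEW'] at hi hen
    have hgi : IntegrableOn (fun τ => C₁ * (1 + √S) * G τ) (Ioo t' t) :=
      (hyp.Gint.mono_set hsub).const_mul _
    have h1 : ∫ τ in Ioo t' t, deriv (W605.MD.EE W) τ
        ≤ ∫ τ in Ioo t' t, C₁ * (1 + √S) * G τ := by
      apply integral_mono_ae hi hgi
      filter_upwards [ae_restrict_of_ae hae, ae_restrict_mem measurableSet_Ioo] with τ h4 hτ2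
      have hτ := h4 (hsub hτ2)
      refine (hder τ hτ).trans ?_
      have e1 : √(W605.MD.EE W τ) ≤ √S := Real.sqrt_le_sqrt (hle τ hτ hτ2.1.le)
      have e2 := hG0 τ hτ
      calc C₁ * G τ * (1 + √(W605.MD.EE W τ)) ≤ C₁ * G τ * (1 + √S) :=
            mul_le_mul_of_nonneg_left (by linarith) (by positivity)
        _ = _ := by ring
    rw [integral_const_mul] at h1
    have h3 : ∫ t in Ioo t' t, G t ≤ ∫ t in Ioo (-1 : ℝ) 0, G t :=
      setIntegral_mono_set hyp.Gint hG0' hsub.eventuallyLE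
    have h4 : C₁ * (1 + √S) * (∫ t in Ioo t' t, G t) ≤ C₁ * (1 + √S) * ε :=
      mul_le_mul_of_nonneg_left (h3.trans hyp.Gle) (by positivity)
    rw [hE'] at hen
    linarith
  have hS1 : S ≤ C₁ * (1 + √S) * ε := by
    conv_lhs => rw [hS]
    apply csSup_le hXn
    rw [hX]
    rintro _ ⟨t, ht, rfl⟩
    exact hkey t ht.1 ht.2
  have hS2 : S ≤ (2 * C₁ + C₁ ^ 2) * ε := by
    obtain ⟨r, hr, hrS⟩ : ∃ r : ℝ, 0 ≤ r ∧ S = r ^ 2 :=
      ⟨√S, Real.sqrt_nonneg _, (Real.sq_sqrt hS0).symm⟩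
    rw [hrS, Real.sqrt_sq hr] at hS1
    rw [hrS]
    have e3 : 0 ≤ (C₁ * ε - r) ^ 2 := sq_nonneg _
    have e4 : C₁ ^ 2 * ε ^ 2 ≤ C₁ ^ 2 * ε := by
      apply mul_le_mul_of_nonneg_left _ (by positivity)
      rw [pow_two]
      exact mul_le_of_le_one_left hε.le hε1
    have e5 : (C₁ * ε - r) ^ 2 = C₁ ^ 2 * ε ^ 2 - 2 * (C₁ * ε * r) + r ^ 2 := by ring
    have e6 : C₁ * (1 + r) * ε = C₁ * ε + C₁ * ε * r := by ring
    have e7 : (2 * C₁ + C₁ ^ 2) * ε = 2 * (C₁ * ε) + C₁ ^ 2 * ε := by ring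
    rw [e6] at hS1
    rw [e5] at e3
    rw [e7]
    linarith
  refine le_trans ?_ ((hle t₁ ht₁ (by linarith)).trans hS2)
  have hsm : ContDiff ℝ ∞ (W t₁) := hW t₁ ht₁
  have hk : W605.MD.EE W t₁ = ∫ z, nsq (W t₁) z * W605.MD.k2 z := by
    rw [W605.MD.EE_eq, W605.MD.chi_one ht₁'.le]
    simp [W605.MD.k2]
  rw [hk]
  have hcs : HasCompactSupport W605.MD.k2 :=
    HasCompactSupport.of_support_subset_isCompact (isCompact_closedBall (0 : V) 1)
      ((subset_tsupport _).trans W605.MD.k2_tsupport)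
  have hint2 : Integrable (fun z => nsq (W t₁) z * W605.MD.k2 z) :=
    ((W605.MD.nsq_cont hsm).mul W605.MD.k2_cont).integrable_of_hasCompactSupport hcs.mul_left
  have e1 : A2 0 (3 / 4) (W t₁) = ∫ z in ball (0 : V) (3 / 4), nsq (W t₁) z * W605.MD.k2 z := by
    unfold A2
    apply setIntegral_congr_fun measurableSet_ball
    intro z hz
    simp only
    rw [W605.MD.k2_one hz, mul_one]
  rw [e1]
  exact setIntegral_le_integral hint2
    (Filter.Eventually.of_forall fun z => mul_nonneg (W605.MD.nsq_nonneg _ z) (W605.MD.k2_nonneg z))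

end Pool.Agent.Y203.NS.WBASE2
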