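import Pool.Agent.Y8.Stm6
import Pool.Agent.W648.MD.LOC
import Pool.Agent.W19.ME.LOCAL

/-!
# NS/Y8 S_WLOC2 and S_WLOCAL: the weak local regularity theorem
-/

set_option autoImplicit false

open MeasureTheory Set Metric
open scoped ContDiff

namespace Pool.Agent.Y203.NS.WLOC2

open H459R3.NS W221.NS Pool.Agent.Y8
open Pool.Agent.W648.MD (rr_pos rr_le_quarter A2_mono B2_mono B2_nonneg nsq_le_of_A2)

theorem wh2_mono {H : Set ℝ} {v W F : ℝ → V → V} {k G : ℝ → ℝ} {ε ε' : ℝ}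
    (h : WH2 H v W F k G ε) (hle : ε ≤ ε') : WH2 H v W F k G ε' :=
  { h with Gle := h.Gle.trans hle }

theorem WIH2_mono {H : Set ℝ} {Λ Λ' : ℝ} (h : Λ ≤ Λ') {y : ℝ → V} {s : ℝ} {W : ℝ → V → V}
    {k : ℕ} (hI : WIH2 H Λ y s W k) : WIH2 H Λ' y s W k := by
  have h8 : (0 : ℝ) < 8 ^ k := by positivity
  have h1 : Λ / 8 ^ k ≤ Λ' / 8 ^ k := (div_le_div_iff_of_pos_right h8).2 h
  exact ⟨fun t ht ht1 ht2 => (hI.1 t ht ht1 ht2).trans h1, hI.2.trans h1⟩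

theorem fae {H : Set ℝ} (h : volume (Ioo (-1 : ℝ) 0 \ H) = 0) :
    ∀ᵐ t : ℝ, t ∈ Ioo (-1 : ℝ) 0 → t ∈ H := by
  rw [← compl_mem_ae_iff] at h
  filter_upwards [h] with t ht ht2
  by_contra h3
  exact ht ⟨ht2, h3⟩

/-- The base case. -/
theorem base2 {H : Set ℝ} {v W F : ℝ → V → V} {k G : ℝ → ℝ} {ε K CW Λ : ℝ}
    (h : WH2 H v W F k G ε) (hK0 : 0 ≤ K) (hCW : 0 ≤ CW) (hε : 0 ≤ ε)
    (hK : ∀ t ∈ H, -9 / 16 < t → A2 0 (3 / 4) (W t) ≤ K * ε)
    (hW : ∀ t ∈ H, B2 0 1 (W t) ≤ CW * G t)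
    (hΛ : 8 ^ 5 * ((1 + K + CW) * ε) ≤ Λ) {a : V} {y : ℝ → V} {s : ℝ} (hsH : s ∈ H)
    (hs : -1 / 16 < s) (hy : WPath H F a s y) {l : ℕ} (hk : 2 ≤ l) (hk5 : l ≤ 5) :
    WIH2 H Λ y s W l := by
  have hr := rr_le_quarter hk
  have hr0 := rr_pos l
  have hr2 : rr l ^ 2 ≤ 1 / 16 := by nlinarith
  obtain ⟨-, δ, hδ, hδ0, -, -, hpath⟩ := hy
  have h8 : (0 : ℝ) < 8 ^ l := by positivity
  have h85 : (8 : ℝ) ^ l ≤ 8 ^ 5 := pow_le_pow_right₀ (by norm_num) hk5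
  have hpos : 0 ≤ (1 + K + CW) * ε := by positivity
  have hkey : (1 + K + CW) * ε ≤ Λ / 8 ^ l := by
    rw [le_div_iff₀ h8]
    calc (1 + K + CW) * ε * 8 ^ l ≤ (1 + K + CW) * ε * 8 ^ 5 :=
          mul_le_mul_of_nonneg_left h85 hpos
      _ = 8 ^ 5 * ((1 + K + CW) * ε) := by ring
      _ ≤ Λ := hΛ
  have hs2 : s < 0 := (h.subH hsH).2
  have hK1 : 0 ≤ K * ε := by positivity
  have hK2 : 0 ≤ CW * ε := by positivity
  have hae := fae h.fullH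
  have hsub : ∀ t, s - rr l ^ 2 < t → t ≤ s → ball (y t) (rr l) ⊆ ball (0 : V) (5 / 8) := by
    intro t ht1 ht2
    have hy1 : dist (y t) 0 < 3 / 8 := mem_ball.1 (hpath t ⟨by linarith, by linarith⟩).2
    refine ball_subset_ball' ?_
    linarith
  refine ⟨fun t ht ht1 ht2 => ?_, ?_⟩
  · obtain ⟨P, hP⟩ := h.slice t ht
    have h1 := A2_mono hP.sW ((hsub t ht1 ht2).trans
      (ball_subset_ball (by norm_num : (5 / 8 : ℝ) ≤ 3 / 4)))
    have h2 := hK t ht (by linarith)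
    nlinarith
  · have hsubI : Ioc (s - rr l ^ 2) s ⊆ Ioo (-1 : ℝ) 0 := fun t ht =>
      ⟨by have := ht.1; linarith, by have := ht.2; linarith⟩
    have hle : ∀ t ∈ Ioc (s - rr l ^ 2) s, t ∈ H → B2 (y t) (rr l) (W t) ≤ CW * G t :=
      fun t ht htH => by
      obtain ⟨P, hP⟩ := h.slice t htH
      exact (B2_mono hP.sW ((hsub t ht.1 ht.2).trans
        (ball_subset_ball (by norm_num : (5 / 8 : ℝ) ≤ 1)))).trans (hW t htH)
    have hG0 : ∀ t ∈ H, 0 ≤ G t := fun t ht => by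
      obtain ⟨P, hP⟩ := h.slice t ht
      exact (B2_nonneg (v t) 0 8).trans hP.grad
    have hGi : IntegrableOn G (Ioc (s - rr l ^ 2) s) := h.Gint.mono_set hsubI
    have h1 : ∫ t in Ioc (s - rr l ^ 2) s, B2 (y t) (rr l) (W t) ≤
        ∫ t in Ioc (s - rr l ^ 2) s, CW * G t := by
      refine integral_mono_of_nonneg (Filter.Eventually.of_forall fun t => B2_nonneg _ _ _)
        (hGi.const_mul CW) ?_
      filter_upwards [ae_restrict_of_ae hae, ae_restrict_mem measurableSet_Ioc] with t h6 h7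
      exact hle t h7 (h6 (hsubI h7))
    have h2 : ∫ t in Ioc (s - rr l ^ 2) s, G t ≤ ∫ t in Ioo (-1 : ℝ) 0, G t := by
      refine setIntegral_mono_set h.Gint ?_ (Filter.Eventually.of_forall hsubI)
      filter_upwards [ae_restrict_of_ae hae, ae_restrict_mem measurableSet_Ioo] with t h6 h7
      exact hG0 t (h6 h7)
    have h3 := h.Gle
    have h4 : ∫ t in Ioc (s - rr l ^ 2) s, CW * G t = CW * ∫ t in Ioc (s - rr l ^ 2) s, G t :=
      integral_const_mul _ _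
    have h5 : CW * ∫ t in Ioc (s - rr l ^ 2) s, G t ≤ CW * ε :=
      mul_le_mul_of_nonneg_left (h2.trans h3) hCW
    nlinarith

theorem t_WLOC2 (hB : S_WBASE2) (hS : S_WSTEP2) (hP : S_WPATH2) (hW : S_WB) : S_WLOC2 := by
  obtain ⟨K, ε₀, hK, hε₀, hB⟩ := hB
  obtain ⟨C, ε₁, hC, hε₁, hS⟩ := hS
  obtain ⟨ε₂, hε₂, hP⟩ := hP
  obtain ⟨CW, hCW, hW⟩ := hW
  set C₁ : ℝ := 8 ^ 5 * ((1 + K + CW) * (1 + C)) with hC₁
  have hC₁0 : 0 < C₁ := by positivity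
  have hC₁1 : 1 ≤ C₁ := by
    rw [hC₁]
    have h1 : 1 ≤ (1 + K + CW) * (1 + C) := by nlinarith [mul_pos hK hC, mul_pos hCW hC]
    linarith
  set ε : ℝ := min ε₀ (min ε₁ (min ε₂ (1 / (9 * C ^ 2 * C₁)))) with hε
  have hε0 : 0 < ε := by
    refine lt_min hε₀ (lt_min hε₁ (lt_min hε₂ ?_))
    positivity
  have hεa : ε ≤ ε₀ := min_le_left _ _
  have hεb : ε ≤ ε₁ := (min_le_right _ _).trans (min_le_left _ _)
  have hεc : ε ≤ ε₂ := (min_le_right _ _).trans ((min_le_right _ _).trans (min_le_left _ _))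
  have hεd : ε ≤ 1 / (9 * C ^ 2 * C₁) :=
    (min_le_right _ _).trans ((min_le_right _ _).trans (min_le_right _ _))
  set Λ : ℝ := C₁ * ε with hΛ
  have hΛ0 : 0 < Λ := by positivity
  have hεΛ : ε ≤ Λ := by rw [hΛ]; nlinarith
  have hΛC : C ^ 2 * Λ ≤ 1 / 9 := by
    rw [le_div_iff₀ (by positivity)] at hεd
    rw [hΛ]
    nlinarith
  have hsq : C * √Λ ≤ 1 / 3 := by
    have h1 : (C * √Λ) ^ 2 ≤ (1 / 3) ^ 2 := by
      rw [mul_pow, Real.sq_sqrt hΛ0.le]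
      linarith
    exact le_of_sq_le_sq h1 (by norm_num)
  have hsq' : C * √ε ≤ 1 / 3 :=
    (mul_le_mul_of_nonneg_left (Real.sqrt_le_sqrt hεΛ) hC.le).trans hsq
  have hb : 8 ^ 5 * ((1 + K + CW) * ε) ≤ Λ := by
    have h1 : 0 ≤ 8 ^ 5 * ((1 + K + CW) * ε) * C := by positivity
    calc 8 ^ 5 * ((1 + K + CW) * ε)
        ≤ 8 ^ 5 * ((1 + K + CW) * ε) + 8 ^ 5 * ((1 + K + CW) * ε) * C := by linarith
      _ = Λ := by rw [hΛ, hC₁]; ring
  have hstep : C * ((1 + K) * ε + Λ * √Λ + Λ * √ε) ≤ Λ := by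
    have h1 : C * ((1 + K) * ε) ≤ Λ / 3 := by
      have h2 : 0 ≤ (1 + K) * ε := by positivity
      have h3 : 0 ≤ C * ((1 + K) * ε) := by positivity
      have h5 : 0 ≤ CW * ε := by positivity
      have h6 : 0 ≤ C * (CW * ε) := by positivity
      have h4 : Λ = 8 ^ 5 * ((1 + K) * ε) + 8 ^ 5 * (C * ((1 + K) * ε)) + 8 ^ 5 * (CW * ε)
          + 8 ^ 5 * (C * (CW * ε)) := by
        rw [hΛ, hC₁]; ring
      rw [h4]
      norm_num
      nlinarith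
    have h2 : C * (Λ * √Λ) ≤ Λ / 3 := by
      calc C * (Λ * √Λ) = Λ * (C * √Λ) := by ring
        _ ≤ Λ * (1 / 3) := mul_le_mul_of_nonneg_left hsq hΛ0.le
        _ = Λ / 3 := by ring
    have h3 : C * (Λ * √ε) ≤ Λ / 3 := by
      calc C * (Λ * √ε) = Λ * (C * √ε) := by ring
        _ ≤ Λ * (1 / 3) := mul_le_mul_of_nonneg_left hsq' hΛ0.le
        _ = Λ / 3 := by ring
    rw [mul_add, mul_add]
    linarith
  refine ⟨ε, √Λ, hε0, Real.sqrt_pos.2 hΛ0, ?_⟩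
  intro H v W F k₀ G h s hsH hs a ha i
  have hKε : ∀ t ∈ H, -9 / 16 < t → A2 0 (3 / 4) (W t) ≤ K * ε := hB ε hε0 hεa H v W F k₀ G h
  obtain ⟨y, hy⟩ := hP H v W F k₀ G (wh2_mono h hεc) a ha s ⟨hs, (h.subH hsH).2⟩
  have hWB : ∀ t ∈ H, B2 0 1 (W t) ≤ CW * G t := fun t ht => by
    obtain ⟨P, hPt⟩ := h.slice t ht
    exact (hW _ _ _ _ _ hPt).2.1
  have hall : ∀ n k : ℕ, 2 ≤ k → k ≤ n → WIH2 H Λ y s W k := by
    intro n
    induction n with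
    | zero => intro k hk1 hk2; omega
    | succ n ih =>
      intro k hk1 hk2
      rcases Nat.lt_or_ge k (n + 1) with hlt | hge
      · exact ih k hk1 (by omega)
      · have hkn : k = n + 1 := by omega
        subst hkn
        rcases Nat.lt_or_ge n 5 with h5 | h5
        · exact base2 h hK.le hCW.le hε0.le hKε hWB hb hsH hs hy hk1 (by omega)
        · exact WIH2_mono hstep
            (hS ε hε0 hεb H v W F k₀ G h K hK.le hKε Λ hΛ0.le a y s hsH hs hy n h5 ih)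
  have hv : ContDiff ℝ ∞ (W s) := by
    obtain ⟨P, hPt⟩ := h.slice s hsH
    exact hPt.sW
  have hA : ∀ k : ℕ, 2 ≤ k → A2 a (rr k) (W s) ≤ Λ / 8 ^ k := fun k hk => by
    have := (hall k k hk le_rfl).1 s hsH (by have := rr_pos k; nlinarith) le_rfl
    rwa [hy.1] at this
  have hn := nsq_le_of_A2 hv a Λ hA
  have hi : W s a i ^ 2 ≤ nsq (W s) a := by
    unfold nsq
    exact Finset.single_le_sum (f := fun i => W s a i ^ 2) (fun j _ => sq_nonneg _)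
      (Finset.mem_univ i)
  refine Real.abs_le_sqrt ?_
  linarith

theorem t_WLOCAL (hg : S_GREEN) (hH : S_WHYP) (hL : S_WLOC2) (hD : S_DEC) : S_WLOCAL := by
  obtain ⟨g, C, hC, hg⟩ := hg
  obtain ⟨C', hC', hH⟩ := hH g C hg
  obtain ⟨ε, CL, hε, hCL, L⟩ := hL
  obtain ⟨D, hDpos, Dec⟩ := hD g C hg
  refine ⟨ε / C', CL + D, by positivity, by positivity, ?_⟩
  intro H v q k hv hint hsmall t ht htl z hz i
  have h1 : C' * ∫ t in Ioo (-1) 0, B2 0 8 (v t) ≤ ε := by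
    calc C' * ∫ t in Ioo (-1) 0, B2 0 8 (v t) ≤ C' * (ε / C') := by gcongr
      _ = ε := by field_simp
  obtain ⟨F, hF⟩ := hH H v q k hv ε hint h1
  have h2 := L H v _ F k _ hF t ht htl z hz i
  have hz' : z ∈ ball (0 : V) 1 := ball_subset_ball (by norm_num) hz
  have hsm : ContDiff ℝ ∞ (v t) :=
    hv.smooth_v.comp_contDiff (f := fun x : V => (t, x)) (contDiff_const.prodMk contDiff_id)
      (fun _ => ⟨ht, mem_univ _⟩)
  have h3 := ((Dec (v t) hsm (fun x _ => hv.divfree t ht x)).2.2.2 z hz' i).1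
  have h4 : |v t z i| ≤ |v t z i - TT g (v t) z i| + |TT g (v t) z i| := by
    have := abs_add_le (v t z i - TT g (v t) z i) (TT g (v t) z i)
    simpa using this
  have h5 : 0 ≤ √(A2 0 4 (v t)) := Real.sqrt_nonneg _
  calc |v t z i| ≤ |v t z i - TT g (v t) z i| + |TT g (v t) z i| := h4
    _ ≤ D * √(A2 0 4 (v t)) + CL := add_le_add h3 h2
    _ ≤ (CL + D) * (1 + √(A2 0 4 (v t))) := by nlinarith [mul_nonneg hCL.le h5]

end Pool.Agent.Y203.NS.WLOC2
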