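import Pool.Agent.Y8.Stm6

/-!
# NS/Y8 S_WPATH2: the paths
-/

set_option autoImplicit false

open MeasureTheory Set Metric
open scoped ContDiff NNReal

namespace Pool.Agent.Y203.NS.WPATH2

open H459R3.NS W221.NS Pool.Agent.Y8

/-- the cut-off -/
noncomputable def zz : ContDiffBump (0 : V) := ⟨3 / 8, 1 / 2, by norm_num, by norm_num⟩

theorem zz_one {x : V} (hx : x ∈ ball (0 : V) (3 / 8)) : zz x = 1 :=
  zz.one_of_mem_closedBall (ball_subset_closedBall hx)

theorem zz_zero {x : V} (hx : x ∉ ball (0 : V) (1 / 2)) : zz x = 0 := by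
  apply zz.zero_of_le_dist
  rw [mem_ball, not_lt] at hx
  exact hx

theorem zz_abs (x : V) : |zz x| ≤ 1 := by
  rw [abs_of_nonneg zz.nonneg]
  exact zz.le_one

/-- continuity in time -/
theorem md_cont {F : ℝ → V → V} {k : ℝ → ℝ} (hk : Integrable k) {M : ℝ} (x : V)
    (h : ∀ s ∈ Icc (-1 : ℝ) 0, ∀ t ∈ Icc (-1 : ℝ) 0, s ≤ t →
      ‖F t x - F s x‖ ≤ M * ∫ τ in Ioo s t, k τ) : ContinuousOn (fun t => F t x) (Icc (-1) 0) := by
  have hKc : Continuous fun t => ∫ τ in (0 : ℝ)..t, k τ :=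
    intervalIntegral.continuous_primitive (fun a b => hk.intervalIntegrable) 0
  have key : ∀ a ∈ Icc (-1 : ℝ) 0, ∀ b ∈ Icc (-1 : ℝ) 0, a ≤ b → ‖F b x - F a x‖ ≤
      |M| * |(∫ τ in (0 : ℝ)..b, k τ) - ∫ τ in (0 : ℝ)..a, k τ| := by
    intro a ha b hb hab
    refine (h a ha b hb hab).trans ?_
    rw [intervalIntegral.integral_interval_sub_left hk.intervalIntegrable
      hk.intervalIntegrable, intervalIntegral.integral_of_le hab,
      integral_Ioc_eq_integral_Ioo, ← abs_mul]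
    exact le_abs_self _
  rw [Metric.continuousOn_iff]
  intro t ht ε hε
  have h5 := Metric.continuous_iff.1 hKc t (ε / (|M| + 1)) (by positivity)
  obtain ⟨δ, hδ, h6⟩ := h5
  refine ⟨δ, hδ, fun s hs hst => ?_⟩
  have h7 := h6 s hst
  rw [Real.dist_eq] at h7
  rw [dist_eq_norm]
  have h9 : |M| * |(∫ τ in (0 : ℝ)..s, k τ) - ∫ τ in (0 : ℝ)..t, k τ| < ε := by
    calc |M| * |(∫ τ in (0 : ℝ)..s, k τ) - ∫ τ in (0 : ℝ)..t, k τ| ≤
        |M| * (ε / (|M| + 1)) := by gcongr
      _ < (|M| + 1) * (ε / (|M| + 1)) := by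
          apply mul_lt_mul_of_pos_right (by linarith)
          positivity
      _ = ε := by field_simp
  rcases le_total s t with hle | hle
  · have h8 := key s hs t ht hle
    rw [norm_sub_rev, abs_sub_comm] at h8
    exact h8.trans_lt h9
  · exact (key t ht s hs hle).trans_lt h9

theorem gsq_nn' (v : V → V) (z : V) : 0 ≤ gsq v z := by
  unfold gsq
  positivity

theorem t_WPATH2 : S_WPATH2 := by
  refine ⟨1 / 16, by norm_num, ?_⟩
  intro H v W F k G hyp a ha s hs
  obtain ⟨M, hM⟩ := hyp.fld.bd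
  obtain ⟨L, hL⟩ := hyp.fld.lip
  obtain ⟨Mk, hMk⟩ := hyp.fld.md
  have hM0 : 0 ≤ M := (norm_nonneg _).trans (hM 0 ⟨by norm_num, le_rfl⟩ 0)
  obtain ⟨K, hK⟩ := zz.contDiff.lipschitzWith_of_hasCompactSupport (𝕂 := ℝ) (n := ∞)
    zz.hasCompactSupport (by simp)
  set F' : ℝ → V → V := fun t x => zz x • F t x with hF'
  have hF0 : ∀ t, ∀ x ∉ ball (0 : V) (1 / 2), F' t x = 0 := by
    intro t x hx
    rw [hF']
    simp only
    rw [zz_zero hx, zero_smul]
  have hbd : ∀ t ∈ Icc (-1 : ℝ) 0, ∀ x, ‖F' t x‖ ≤ (⟨M, hM0⟩ : ℝ≥0) := by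
    intro t ht x
    show ‖zz x • F t x‖ ≤ M
    rw [norm_smul, Real.norm_eq_abs]
    calc |zz x| * ‖F t x‖ ≤ 1 * M :=
          mul_le_mul (zz_abs x) (hM t ht x) (norm_nonneg _) zero_le_one
      _ = M := one_mul M
  have hlip : ∀ t ∈ Icc (-1 : ℝ) 0, LipschitzWith (L + K * ⟨M, hM0⟩) (F' t) := by
    intro t ht
    refine LipschitzWith.of_dist_le_mul fun x y => ?_
    have e1 : F' t x - F' t y = zz x • (F t x - F t y) + (zz x - zz y) • F t y := by
      rw [hF']
      simp only [smul_sub, sub_smul]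
      abel
    rw [dist_eq_norm, e1]
    have h1 := (hL t ht).dist_le_mul x y
    have h2 := hK.dist_le_mul x y
    rw [dist_eq_norm] at h1
    rw [Real.dist_eq] at h2
    have h3 := hM t ht y
    have h4 : (0 : ℝ) ≤ dist x y := dist_nonneg
    have h5 : (0 : ℝ) ≤ K := K.2
    refine (norm_add_le _ _).trans ?_
    rw [norm_smul, norm_smul, Real.norm_eq_abs, Real.norm_eq_abs]
    have e2 : ((L + K * ⟨M, hM0⟩ : ℝ≥0) : ℝ) = L + K * M := by
      push_cast
      rfl
    rw [e2]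
    calc |zz x| * ‖F t x - F t y‖ + |zz x - zz y| * ‖F t y‖ ≤
        1 * (L * dist x y) + (K * dist x y) * M :=
          add_le_add (mul_le_mul (zz_abs x) h1 (norm_nonneg _) zero_le_one)
            (mul_le_mul h2 h3 (norm_nonneg _) (by positivity))
      _ = _ := by ring
  have hcont : ∀ x, ContinuousOn (fun t => F' t x) (Icc (-1) 0) := fun x =>
    (md_cont hyp.kint x fun s hs t ht hst => hMk s hs t ht hst x).const_smul (zz x)
  have hsI : s ∈ Icc (-1 : ℝ) 0 := ⟨by linarith [hs.1], hs.2.le⟩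
  -- the solution
  obtain ⟨z, hz0, hz⟩ : ∃ z : ℝ → V, z s = a ∧
      ∀ t ∈ Icc (-1 : ℝ) 0, HasDerivWithinAt z (F' t (z t)) (Icc (-1) 0) t := by
    have hPL : IsPicardLindelof F' (⟨s, hsI⟩ : Icc (-1 : ℝ) 0) a (⟨M, hM0⟩ * 1) 0
        ⟨M, hM0⟩ (L + K * ⟨M, hM0⟩) := by
      refine ⟨fun t ht => (hlip t ht).lipschitzOnWith, fun y _ => hcont y,
        fun t ht y _ => hbd t ht y, ?_⟩
      simp only [NNReal.coe_zero, sub_zero]
      apply mul_le_mul_of_nonneg_left _ hM0
      apply max_le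
      · show 0 - s ≤ 1
        linarith [hsI.1]
      · show s - (-1) ≤ 1
        linarith [hsI.2]
    obtain ⟨z, hz0, hz⟩ := hPL.exists_eq_forall_mem_Icc_hasDerivWithinAt₀
    exact ⟨z, hz0, hz⟩
  have hzc : ContinuousOn z (Icc (-1) 0) := fun t ht => (hz t ht).continuousWithinAt
  have hzd : ∀ t ∈ Ioo (-1 : ℝ) 0, HasDerivAt z (F' t (z t)) t := fun t ht =>
    (hz t (Ioo_subset_Icc_self ht)).hasDerivAt (Icc_mem_nhds ht.1 ht.2)
  have hcF : ContinuousOn (fun τ => F' τ (z τ)) (Icc (-1) 0) := by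
    have h1 : ContinuousOn (Function.uncurry F') (Icc (-1 : ℝ) 0 ×ˢ univ) :=
      continuousOn_prod_of_continuousOn_lipschitzOnWith' (Function.uncurry F') _
        (fun t ht => (hlip t ht).lipschitzOnWith) (fun x _ => hcont x)
    have h2 : ContinuousOn (fun τ => (τ, z τ)) (Icc (-1 : ℝ) 0) := continuousOn_id.prodMk hzc
    exact h1.comp h2 (fun τ hτ => ⟨hτ, trivial⟩)
  -- the bound by `G`
  have hGnn : ∀ t ∈ H, 0 ≤ G t := by
    intro t ht
    obtain ⟨P, hP⟩ := hyp.slice t ht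
    refine le_trans ?_ hP.grad
    exact setIntegral_nonneg isOpen_ball.measurableSet fun y _ => gsq_nn' _ y
  have hae : ∀ᵐ t : ℝ, t ∈ Ioo (-1 : ℝ) 0 → t ∈ H := by
    have h1 := hyp.fullH
    rw [← compl_mem_ae_iff] at h1
    filter_upwards [h1] with t ht ht2
    by_contra h3
    exact ht ⟨ht2, h3⟩
  have hFG : ∀ t ∈ H, ∀ x, ‖F' t x‖ ≤ (1 + G t) / 2 := by
    intro t ht x
    have hG0 := hGnn t ht
    have hsq : √(G t) ≤ (1 + G t) / 2 := by
      rw [Real.sqrt_le_left (by positivity)]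
      nlinarith [sq_nonneg (1 - G t)]
    by_cases hx : x ∈ ball (0 : V) (1 / 2)
    · refine le_trans ?_ hsq
      obtain ⟨P, hP⟩ := hyp.slice t ht
      have hx1 : x ∈ ball (0 : V) 1 := ball_subset_ball (by norm_num) hx
      rw [hF']
      simp only
      rw [norm_smul, Real.norm_eq_abs]
      have h2 : ‖F t x‖ ≤ √(G t) := by
        rw [pi_norm_le_iff_of_nonneg (Real.sqrt_nonneg _)]
        intro i
        rw [hyp.eqF t ht x hx1 i]
        exact hP.dD x hx1 i
      calc |zz x| * ‖F t x‖ ≤ 1 * √(G t) :=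
            mul_le_mul (zz_abs x) h2 (norm_nonneg _) zero_le_one
        _ = √(G t) := one_mul _
    · rw [hF0 t x hx, norm_zero]
      positivity
  have hstay : ∀ t ∈ Ioc (s - 1 / 8) s, z t ∈ ball (0 : V) (3 / 8) := by
    intro t ht
    have hts : t ≤ s := ht.2
    have hs1 := hs.1
    have hs2 := hs.2
    have hsubI : Icc t s ⊆ Icc (-1 : ℝ) 0 := by
      apply Icc_subset_Icc _ hs2.le
      linarith [ht.1]
    have hsubI' : Ioo t s ⊆ Ioo (-1 : ℝ) 0 := by
      intro τ hτ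
      exact ⟨by linarith [ht.1, hτ.1], hτ.2.trans hs2⟩
    have hii : IntervalIntegrable (fun τ => F' τ (z τ)) volume t s := by
      apply ContinuousOn.intervalIntegrable
      rw [uIcc_of_le hts]
      exact hcF.mono hsubI
    have hftc := intervalIntegral.integral_eq_sub_of_hasDerivAt_of_le hts (hzc.mono hsubI)
      (fun τ hτ => hzd τ (hsubI' hτ)) hii
    have hsubG : Ioc t s ⊆ Ioo (-1 : ℝ) 0 := by
      intro τ hτ
      exact ⟨by linarith [ht.1, hτ.1], hτ.2.trans_lt hs2⟩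
    have hGt : IntegrableOn G (Ioc t s) := hyp.Gint.mono_set hsubG
    have hb1 : ‖∫ τ in t..s, F' τ (z τ)‖ ≤ ∫ τ in t..s, (1 + G τ) / 2 := by
      apply intervalIntegral.norm_integral_le_of_norm_le hts
      · filter_upwards [hae] with τ hτ hτ2
        exact hFG τ (hτ (hsubG hτ2)) _
      · rw [intervalIntegrable_iff_integrableOn_Ioc_of_le hts]
        have h1 : IntegrableOn (fun _ : ℝ => (1 : ℝ)) (Ioc t s) :=
          continuousOn_const.integrableOn_Icc.mono_set Ioc_subset_Icc_self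
        exact (h1.add hGt).div_const 2
    have hb2 : ∫ τ in t..s, (1 + G τ) / 2 = ((s - t) + ∫ τ in Ioc t s, G τ) / 2 := by
      rw [intervalIntegral.integral_div, intervalIntegral.integral_of_le hts]
      have h1 : IntegrableOn (fun _ : ℝ => (1 : ℝ)) (Ioc t s) :=
        continuousOn_const.integrableOn_Icc.mono_set Ioc_subset_Icc_self
      rw [integral_add h1 hGt]
      congr 2
      rw [setIntegral_const, smul_eq_mul, mul_one]
      simp [Measure.real, Real.volume_Ioc, hts]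
    have hb3 : ∫ τ in Ioc t s, G τ ≤ ∫ τ in Ioo (-1 : ℝ) 0, G τ := by
      apply setIntegral_mono_set hyp.Gint
      · filter_upwards [ae_restrict_of_ae hae, ae_restrict_mem measurableSet_Ioo] with τ h1 h2
        exact hGnn τ (h1 h2)
      · exact Filter.Eventually.of_forall hsubG
    have hb4 : ‖z s - z t‖ ≤ 3 / 32 := by
      rw [← hftc]
      refine hb1.trans ?_
      rw [hb2]
      have h1 := ht.1
      have h2 := hyp.Gle
      linarith
    rw [mem_ball, dist_zero_right] at ha ⊢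
    have hb5 : ‖z t‖ ≤ ‖z s‖ + ‖z s - z t‖ := by
      have h1 := norm_sub_le (z s) (z s - z t)
      rwa [sub_sub_cancel] at h1
    rw [hz0] at hb5
    rw [hz0] at hb4
    linarith
  -- continuation to the right
  have hcs : ContinuousAt z s := (hzd s ⟨by linarith [hs.1], hs.2⟩).continuousAt
  have hev : ∀ᶠ t in nhds s, z t ∈ ball (0 : V) (3 / 8) := by
    apply hcs.eventually_mem
    apply isOpen_ball.mem_nhds
    rw [hz0]
    exact ball_subset_ball (by norm_num) ha
  obtain ⟨η, hη, hball⟩ := Metric.eventually_nhds_iff_ball.1 hev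
  have hs1 := hs.1
  have hs2 := hs.2
  have hmin1 := min_le_left η (-s / 4)
  have hmin2 := min_le_right η (-s / 4)
  have hmem : ∀ t ∈ Ioo (s - 1 / 8) (s + min η (-s / 4)), z t ∈ ball (0 : V) (3 / 8) := by
    intro t ht
    rcases le_or_gt t s with h | h
    · exact hstay t ⟨ht.1, h⟩
    · apply hball
      rw [mem_ball, Real.dist_eq, abs_of_pos (by linarith)]
      linarith [ht.2]
  have hsub : Ioo (s - 1 / 8) (s + min η (-s / 4)) ⊆ Ioo (-1) 0 := by
    intro t ht
    exact ⟨by linarith [ht.1], by linarith [ht.2]⟩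
  have heq : ∀ t ∈ Ioo (s - 1 / 8) (s + min η (-s / 4)), F' t (z t) = F t (z t) := by
    intro t ht
    rw [hF']
    simp only
    rw [zz_one (hmem t ht), one_smul]
  refine ⟨z, hz0, min η (-s / 4), lt_min hη (by linarith), by linarith, ?_, ?_, ?_⟩
  · intro t ht
    obtain ⟨a1, b1, hab, hsub1⟩ := nb hyp.openH ht.1
    obtain ⟨a', ha1, ha2⟩ := exists_between hab.1
    obtain ⟨b', hb1, hb2⟩ := exists_between hab.2
    have hI : Icc a' b' ⊆ H := fun s hs => hsub1 ⟨ha1.trans_le hs.1, hs.2.trans_lt hb2⟩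
    have hMs : ContDiffOn ℝ ∞ (Function.uncurry F') (Icc a' b' ×ˢ univ) := by
      have h1 : ContDiff ℝ ∞ (fun z : ℝ × V => zz z.2) := zz.contDiff.comp contDiff_snd
      exact h1.contDiffOn.smul (hyp.fld.smH.mono (prod_mono hI subset_rfl))
    have hsm : ContDiffOn ℝ ((⊤ : ℕ∞) : WithTop ℕ∞) z (Icc a' b') :=
      ODE.contDiffOn_enat_Icc_of_hasDerivWithinAt (n := ⊤) (u := univ) hMs
        (fun s hs => (hzd s (hyp.subH (hI hs))).hasDerivWithinAt) (fun _ _ => trivial)
    exact ((hsm t ⟨ha2.le, hb1.le⟩).contDiffAt (Icc_mem_nhds ha2 hb1)).contDiffWithinAt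
  · refine (hcF.mono (hsub.trans Ioo_subset_Icc_self)).congr fun t ht => ?_
    exact (heq t ht).symm
  · intro t ht
    refine ⟨?_, hmem t ht⟩
    rw [← heq t ht]
    exact hzd t (hsub ht)

end Pool.Agent.Y203.NS.WPATH2
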